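import Pool.Agent.H283.HT.Stm

/-!
# HT-H2: horizontal certificates
-/

set_option autoImplicit false

namespace Pool.Agent.H585.HTH2

open Pool.Agent.H283.HT

lemma dt_add (u v w : P2) : dt u (v + w) = dt u v + dt u w := by
  simp only [dt, Prod.fst_add, Prod.snd_add]; ring

lemma dt_smul (u v : P2) (c : ℝ) : dt u (c • v) = c * dt u v := by
  simp only [dt, Prod.smul_fst, Prod.smul_snd, smul_eq_mul]; ring

lemma sum_dt {k : ℕ} (ν : Fin k → P2) (v : P2) : ∑ i, dt (ν i) v = dt (∑ i, ν i) v := by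
  simp only [dt, Prod.fst_sum, Prod.snd_sum]
  rw [Finset.sum_add_distrib, Finset.sum_mul, Finset.sum_mul]

theorem H2_done (hDI : S_DI) (hPOS : S_POS) (hL2 : S_L2) : S_H2 := by
  intro K q hB hD hP a b k θ x n hab hbπ cert hNH
  have hhor : ∀ i, (n i).2 = 0 := by
    intro i
    by_contra h
    exact hNH ⟨i, h⟩
  have hν : ∀ i, (n i).1 ≠ 0 := by
    intro i h
    exact cert.ne i (Prod.ext h (hhor i))
  have hmax : ∀ i, ∀ p ∈ Sh K, dt (n i).1 p ≤ dt (n i).1 (q (θ i)) := by
    rintro i p ⟨y, hy, rfl⟩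
    have h1 := cert.normal i y hy
    unfold ip at h1
    rw [hhor i, zero_mul, zero_mul, add_zero, add_zero, cert.above i] at h1
    exact h1
  have hpos : ∀ i, 0 < dt (n i).1 (q (θ i)) := by
    intro i
    obtain ⟨y, hy, hy'⟩ := (hDI (Sh K) hD).2.2.2 _ (hν i)
    exact lt_of_lt_of_le hy' (hmax i y hy)
  have hsum : ∑ i, (n i).1 = 0 := by
    have h1 := congrArg Prod.fst cert.sum
    rwa [Prod.fst_sum] at h1
  have hs : ∀ v : P2, ∑ i, dt (n i).1 v = 0 := by
    intro v
    rw [sum_dt (fun i => (n i).1) v, hsum]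
    simp [dt]
  have : Nonempty (Fin k) := ⟨⟨0, cert.pos⟩⟩
  rcases hab.eq_or_lt with heq | hlt
  · exfalso
    have h1 : ∀ i, θ i = a := fun i => le_antisymm (by rw [heq]; exact cert.right i) (cert.left i)
    have h2 : 0 < ∑ i, dt (n i).1 (q a) := by
      apply Finset.sum_pos
      · intro i _
        have := hpos i
        rwa [h1 i] at this
      · exact Finset.univ_nonempty
    rw [hs] at h2
    exact lt_irrefl _ h2
  · have hl : ∀ i, 0 ≤ dt (n i).1 (q a + q b) ∧ (dt (n i).1 (q a + q b) = 0 →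
        0 < dt (n i).1 (q b) → ∀ p ∈ Sh K, dt (n i).1 p ≤ dt (n i).1 (q b)) := fun i =>
      hL2 (Sh K) q hD hP a b (θ i) (n i).1 hlt hbπ (cert.left i) (cert.right i) (hmax i)
    have hz : ∀ i, dt (n i).1 (q a + q b) = 0 := by
      have h1 := (Finset.sum_eq_zero_iff_of_nonneg (s := Finset.univ)
        (f := fun i => dt (n i).1 (q a + q b)) (fun i _ => (hl i).1)).1 (hs _)
      exact fun i => h1 i (Finset.mem_univ i)
    have hex : ∃ i, 0 < dt (n i).1 (q b) := by
      by_contra hcon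
      push Not at hcon
      have h1 := (Finset.sum_eq_zero_iff_of_nonpos (s := Finset.univ)
        (f := fun i => dt (n i).1 (q b)) (fun i _ => hcon i)).1 (hs _)
      obtain ⟨i⟩ := (inferInstance : Nonempty (Fin k))
      have h2 : dt (n i).1 (q b) = 0 := h1 i (Finset.mem_univ i)
      have h3 : dt (n i).1 (q a) = 0 := by
        have := hz i
        rw [dt_add, h2, add_zero] at this
        exact this
      have h4 := (hPOS (Sh K) q hD hP).1 a b hlt hbπ
      have h5 := (hPOS (Sh K) q hD hP).2.2.1 a b (θ i)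
      have h6 := congrArg (dt (n i).1) h5
      rw [dt_smul, dt_add, dt_smul, dt_smul, h2, h3, mul_zero, mul_zero, add_zero] at h6
      have h7 := mul_pos h4 (hpos i)
      rw [h6] at h7
      exact lt_irrefl _ h7
    obtain ⟨i, hi⟩ := hex
    refine ⟨(n i).1, hν i, (hl i).2 (hz i) hi, ?_⟩
    have := hz i
    rw [dt_add] at this
    linarith

end Pool.Agent.H585.HTH2
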